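import Pool.Agent.K3h83.IN.Stm4

/-!
# The intersection of a minimal normal subgroup of symplectic type with the Sylow normalizer
-/

set_option autoImplicit false
set_option linter.style.haveILetI false

open scoped BigOperators Classical

noncomputable section

namespace Pool.Agent.K3h93.IN

open Pool.Agent.K3h83.IN Pool.Agent.K3h3.MK

theorem normal_of_mid {G : Type} [Group G] {L N C : Subgroup G} (hL : L.Normal)
    (hcom : ∀ a ∈ L, ∀ b ∈ L, a * b * a⁻¹ * b⁻¹ ∈ Subgroup.center G)
    (htop : L ⊔ N = ⊤) (hZ : Subgroup.center G ≤ C) (hCL : C ≤ L)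
    (hN : ∀ n ∈ N, ∀ c ∈ C, n * c * n⁻¹ ∈ C) : C.Normal := by
  constructor
  intro c hc g
  have hg : g ∈ ((L ⊔ N : Subgroup G) : Set G) := by rw [htop]; trivial
  rw [Subgroup.normal_mul] at hg
  obtain ⟨l, hl, n, hn, rfl⟩ := hg
  have h1 : n * c * n⁻¹ ∈ C := hN n hn c hc
  have h2 := hcom l hl _ (hCL h1)
  have h3 := C.mul_mem (hZ h2) h1
  have e : l * n * c * (l * n)⁻¹ = l * (n * c * n⁻¹) * l⁻¹ * (n * c * n⁻¹)⁻¹ * (n * c * n⁻¹) := by
    group
  show l * n * c * (l * n)⁻¹ ∈ C
  rw [e]
  exact h3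

theorem eq_one_of_ppow {G : Type} [Group G] [Finite G] {p : ℕ} [Fact p.Prime]
    (hp : ¬ p ∣ Nat.card (Subgroup.center G)) {z : G} (hz : z ∈ Subgroup.center G) {k : ℕ}
    (h : z ^ p ^ k = 1) : z = 1 := by
  have h1 : orderOf z ∣ p ^ k := orderOf_dvd_of_pow_eq_one h
  have h2 : orderOf z ∣ Nat.card (Subgroup.center G) := by
    have := orderOf_dvd_natCard (⟨z, hz⟩ : Subgroup.center G)
    rwa [Subgroup.orderOf_mk] at this
  have hcop : Nat.Coprime (p ^ k) (Nat.card (Subgroup.center G)) :=
    Nat.Coprime.pow_left k ((Fact.out : p.Prime).coprime_iff_not_dvd.2 hp)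
  have h3 : orderOf z ∣ 1 := by
    rw [← hcop]
    exact Nat.dvd_gcd h1 h2
  exact orderOf_eq_one_iff.1 (Nat.dvd_one.1 h3)

/-- an element `l` normalizing `P` modulo the center centralizes `P` -/
theorem comm_of_fix {G : Type} [Group G] [Finite G] {p : ℕ} [Fact p.Prime] (P : Sylow p G)
    (hp : ¬ p ∣ Nat.card (Subgroup.center G)) {l : G}
    (h : ∀ y ∈ P, l⁻¹ * (y * l * y⁻¹) ∈ Subgroup.center G) : ∀ y ∈ P, l * y = y * l := by
  intro y hy
  set z := l⁻¹ * (y * l * y⁻¹) with hz
  have hzc := h y hy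
  obtain ⟨k, hk⟩ := P.isPGroup' ⟨y, hy⟩
  have hk' : y ^ p ^ k = 1 := by
    have := congrArg Subtype.val hk
    simpa using this
  have e1 : l⁻¹ * y * l = z * y := by rw [hz]; group
  have hcom : Commute z y := (Subgroup.mem_center_iff.1 hzc y).symm
  have h2 : (z * y) ^ p ^ k = 1 := by
    rw [← e1]
    have := conj_pow (i := p ^ k) (a := l⁻¹) (b := y)
    rw [inv_inv] at this
    rw [this, hk']
    group
  rw [hcom.mul_pow, hk', mul_one] at h2
  have hz1 := eq_one_of_ppow hp hzc h2
  have hz2 : z = 1 := hz1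
  rw [hz2, one_mul] at e1
  calc l * y = l * (l⁻¹ * y * l) := by rw [e1]
    _ = y * l := by group

/-- the elements of order dividing `p` of the center of `P` -/
def EE {p : ℕ} {G : Type} [Group G] (P : Subgroup G) : Subgroup G where
  carrier := {x | x ∈ P ∧ (∀ y ∈ P, x * y = y * x) ∧ x ^ p = 1}
  one_mem' := ⟨P.one_mem, fun y _ => by rw [one_mul, mul_one], one_pow p⟩
  mul_mem' := by
    rintro a b ⟨ha, ha2, ha3⟩ ⟨hb, hb2, hb3⟩
    refine ⟨P.mul_mem ha hb, fun y hy => ?_, ?_⟩
    · rw [mul_assoc, hb2 y hy, ← mul_assoc, ha2 y hy, mul_assoc]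
    · have hc : Commute a b := ha2 b hb
      rw [hc.mul_pow, ha3, hb3, mul_one]
  inv_mem' := by
    rintro a ⟨ha, ha2, ha3⟩
    refine ⟨P.inv_mem ha, fun y hy => ?_, ?_⟩
    · have hc : Commute a y := ha2 y hy
      exact hc.inv_left
    · rw [inv_pow, ha3, inv_one]

theorem mem_EE {p : ℕ} {G : Type} [Group G] {P : Subgroup G} {x : G} :
    x ∈ EE (p := p) P ↔ x ∈ P ∧ (∀ y ∈ P, x * y = y * x) ∧ x ^ p = 1 := Iff.rfl

theorem exists_EE {p : ℕ} [Fact p.Prime] {G : Type} [Group G] [Finite G] (P : Sylow p G)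
    (hN : NN P ≠ ⊤) : ∃ x ∈ EE (p := p) (P : Subgroup G), orderOf x = p := by
  have hne : (P : Subgroup G) ≠ ⊥ := by
    intro h
    apply hN
    show Subgroup.normalizer ((P : Subgroup G) : Set G) = ⊤
    rw [h]
    exact Subgroup.normalizer_eq_top (H := (⊥ : Subgroup G))
  have : Nontrivial (P : Subgroup G) := (Subgroup.nontrivial_iff_ne_bot _).2 hne
  have := P.isPGroup'.center_nontrivial
  have hpc : IsPGroup p (Subgroup.center (P : Subgroup G)) := P.isPGroup'.to_subgroup _
  obtain ⟨n, hn, hcard⟩ := hpc.nontrivial_iff_card.1 inferInstance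
  have hdvd : p ∣ Nat.card (Subgroup.center (P : Subgroup G)) := by
    rw [hcard]; exact dvd_pow_self p hn.ne'
  obtain ⟨x, hx⟩ := exists_prime_orderOf_dvd_card' p hdvd
  have hord : orderOf ((x : (P : Subgroup G)) : G) = p := by
    rw [Subgroup.orderOf_coe, Subgroup.orderOf_coe, hx]
  refine ⟨((x : (P : Subgroup G)) : G), mem_EE.2 ⟨x.1.2, ?_, ?_⟩, hord⟩
  · intro y hy
    have := Subgroup.mem_center_iff.1 x.2 ⟨y, hy⟩
    have := congrArg Subtype.val this
    simpa using this.symm
  · have := pow_orderOf_eq_one ((x : (P : Subgroup G)) : G)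
    rwa [hord] at this

theorem EE_conj {p : ℕ} [Fact p.Prime] {G : Type} [Group G] (P : Sylow p G) :
    ∀ n ∈ NN P, ∀ e ∈ EE (p := p) (P : Subgroup G), n * e * n⁻¹ ∈ EE (p := p) (P : Subgroup G) := by
  intro n hn e he
  rw [mem_EE] at he ⊢
  have hn1 := Subgroup.mem_normalizer_iff.1 hn
  refine ⟨(hn1 e).1 he.1, fun y hy => ?_, ?_⟩
  · have hy' : n⁻¹ * y * n ∈ (P : Subgroup G) := by
      rw [hn1]
      have : n * (n⁻¹ * y * n) * n⁻¹ = y := by group
      rw [this]; exact hy
    have h1 := he.2.1 _ hy'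
    calc n * e * n⁻¹ * y = n * (e * (n⁻¹ * y * n)) * n⁻¹ := by group
      _ = n * ((n⁻¹ * y * n) * e) * n⁻¹ := by rw [h1]
      _ = y * (n * e * n⁻¹) := by group
  · rw [conj_pow, he.2.2]; group

theorem fix_one {G : Type} [Group G] [Finite G] {p : ℕ} [Fact p.Prime] (P : Sylow p G)
    (hp : ¬ p ∣ Nat.card (Subgroup.center G)) (L : Subgroup G) (hL : L.Normal)
    (hLN : L ⊓ NN P = Subgroup.center G) :
    (((Subgroup.center G).relIndex L : ℕ) : ZMod p) = 1 := by
  set f : G →* G ⧸ Subgroup.center G := QuotientGroup.mk' (Subgroup.center G) with hf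
  have hsurj : Function.Surjective f := QuotientGroup.mk'_surjective _
  have hn : (L.map f).Normal := hL.map f hsurj
  have hcard : (Subgroup.center G).relIndex L = Nat.card (L.map f) := by
    have := Subgroup.relIndex_ker L f
    rwa [hf, QuotientGroup.ker_mk'] at this
  let act : MulAction (P : Subgroup G) (L.map f) :=
    MulAction.compHom (L.map f)
      ((MulAut.conjNormal (H := L.map f)).comp (f.comp (P : Subgroup G).subtype))
  have hact : ∀ (y : (P : Subgroup G)) (x : L.map f), ((y • x : L.map f) : G ⧸ Subgroup.center G) =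
      f y * x * (f y)⁻¹ := by
    intro y x
    exact MulAut.conjNormal_apply (f (y : G)) x
  have hmod := P.isPGroup'.card_modEq_card_fixedPoints (L.map f)
  have hfix : MulAction.fixedPoints (P : Subgroup G) (L.map f) = {1} := by
    ext x
    rw [Set.mem_singleton_iff, MulAction.mem_fixedPoints]
    constructor
    · intro hx
      obtain ⟨x, l, hl, rfl⟩ := x
      have h1 : ∀ y ∈ P, l⁻¹ * (y * l * y⁻¹) ∈ Subgroup.center G := by
        intro y hy
        have h2 := congrArg Subtype.val (hx ⟨y, hy⟩)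
        rw [hact] at h2
        have h3 : f y * f l * (f y)⁻¹ = f l := h2
        have h4 : f (l⁻¹ * (y * l * y⁻¹)) = 1 := by
          rw [map_mul, map_inv, map_mul, map_mul, map_inv, h3]; group
        rwa [hf, QuotientGroup.mk'_apply, QuotientGroup.eq_one_iff] at h4
      have h5 := comm_of_fix P hp h1
      have h6 : l ∈ L ⊓ NN P := by
        refine ⟨hl, Subgroup.mem_normalizer_iff.2 fun y => ⟨fun hy => ?_, fun hy => ?_⟩⟩
        · rw [h5 y hy]; simpa using hy
        · have := h5 _ hy
          have e : l * y * l⁻¹ = y := by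
            have h7 : l * (l * y * l⁻¹) = l * y * l⁻¹ * l := this
            have h8 : l * y * l⁻¹ = l⁻¹ * (l * (l * y * l⁻¹)) := by group
            rw [h8, h7]; group
          rwa [e] at hy
      rw [hLN] at h6
      apply Subtype.ext
      show f l = 1
      rw [hf, QuotientGroup.mk'_apply, QuotientGroup.eq_one_iff]
      exact h6
    · rintro rfl y
      apply Subtype.ext
      rw [hact]
      simp
  rw [hfix, ← hcard] at hmod
  have h1 : Nat.card (({1} : Set (L.map f))) = 1 := by simp
  rw [h1] at hmod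
  have := (ZMod.natCast_eq_natCast_iff _ _ _).2 hmod
  simpa using this

/-- `G2` -/
theorem t_G2 : G2 := by
  intro p q hp hq G _ _ P hqp hN hpZ hmin L hL hLZ hLmin
  have hLle : ¬ L ≤ Subgroup.center G := fun h => hLZ (le_antisymm h hL.le)
  have htop : L ⊔ NN P = ⊤ := hmin L hL.nL hLle
  have hZN : Subgroup.center G ≤ NN P := by
    intro z hz
    refine Subgroup.mem_normalizer_iff.2 fun y => ?_
    have := Subgroup.mem_center_iff.1 hz y
    rw [← this]
    simp
  have hLN : L ⊓ NN P = Subgroup.center G := by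
    have hn : (L ⊓ NN P).Normal := by
      refine normal_of_mid hL.nL hL.com htop (le_inf hL.le hZN) inf_le_left ?_
      intro n hn c hc
      refine ⟨hL.nL.conj_mem c hc.1 n, ?_⟩
      exact (NN P).mul_mem ((NN P).mul_mem hn hc.2) ((NN P).inv_mem hn)
    rcases hLmin _ hn (le_inf hL.le hZN) inf_le_left with h | h
    · exact h
    · exfalso
      have h1 : L ≤ NN P := inf_eq_left.1 h
      rw [sup_eq_right.2 h1] at htop
      exact hN htop
  refine ⟨hLN, fix_one P hpZ L hL.nL hLN, EE (p := p) (P : Subgroup G), ?_, EE_conj P, ?_, ?_, ?_⟩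
  · intro x hx
    exact Subgroup.le_normalizer hx.1
  · intro a ha b hb
    exact ha.2.1 b hb.1
  · intro a ha
    exact ha.2.2
  · set E := EE (p := p) (P : Subgroup G) with hE
    have hconj := EE_conj P
    let C : Subgroup G := L ⊓ Subgroup.centralizer (E : Set G)
    have hZC : Subgroup.center G ≤ C := le_inf hL.le (Subgroup.center_le_centralizer _)
    have hC : C.Normal := by
      refine normal_of_mid hL.nL hL.com htop hZC inf_le_left ?_
      intro n hn c hc
      refine ⟨hL.nL.conj_mem c hc.1 n, ?_⟩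
      refine Subgroup.mem_centralizer_iff.2 fun e he => ?_
      have h1 : n⁻¹ * e * n ∈ E := by
        have := hconj n⁻¹ ((NN P).inv_mem hn) e he
        rwa [inv_inv] at this
      have h2 := Subgroup.mem_centralizer_iff.1 hc.2 _ h1
      calc e * (n * c * n⁻¹) = n * ((n⁻¹ * e * n) * c) * n⁻¹ := by group
        _ = n * (c * (n⁻¹ * e * n)) * n⁻¹ := by rw [h2]
        _ = n * c * n⁻¹ * e := by group
    rcases hLmin C hC hZC inf_le_left with h | h
    · intro l hl hcm
      have : l ∈ C := ⟨hl, Subgroup.mem_centralizer_iff.2 fun e he => hcm e he⟩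
      rwa [h] at this
    · exfalso
      have h1 : L ≤ Subgroup.centralizer (E : Set G) := inf_eq_left.1 h
      have hEn : E.Normal := by
        constructor
        intro e he g
        have hg : g ∈ ((L ⊔ NN P : Subgroup G) : Set G) := by rw [htop]; trivial
        have := hL.nL
        rw [Subgroup.normal_mul] at hg
        obtain ⟨l, hl, n, hn, rfl⟩ := hg
        have h2 := hconj n hn e he
        have h3 := Subgroup.mem_centralizer_iff.1 (h1 hl) _ h2
        show l * n * e * (l * n)⁻¹ ∈ E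
        have e1 : l * n * e * (l * n)⁻¹ = n * e * n⁻¹ := by
          calc l * n * e * (l * n)⁻¹ = l * (n * e * n⁻¹) * l⁻¹ := by group
            _ = (n * e * n⁻¹) * l * l⁻¹ := by rw [h3]
            _ = n * e * n⁻¹ := by group
        rw [e1]
        exact h2
      obtain ⟨x, hx, hox⟩ := exists_EE P hN
      by_cases hEZ : E ≤ Subgroup.center G
      · apply hpZ
        have := orderOf_dvd_natCard (⟨x, hEZ hx⟩ : Subgroup.center G)
        rwa [Subgroup.orderOf_mk, hox] at this
      · have h2 := hmin E hEn hEZ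
        have h3 : E ≤ NN P := fun x hx => Subgroup.le_normalizer hx.1
        rw [sup_eq_right.2 h3] at h2
        exact hN h2

end Pool.Agent.K3h93.IN
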